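import Pool.Agent.Y302.DN.GCNT
import Pool.Agent.Y302.DN.GFREE
import Pool.Agent.Y302.DN.BESA
import Pool.Agent.Y417.DN.GRD
import Pool.Agent.Y259.DN.BESD

/-!
# Triple systems decided by decomposable circuits

The vertices are the `n = 2 ^ m` strings of `m` bits, in any labelling. A DNNF (decomposable
negation normal form: the conjuncts of a conjunction have no variable in common, disjunctions are
unrestricted; this includes nondeterministic read-once branching programs, which may read the bits
of the three strings in a different order on every path) with `s` gates decides which three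
different vertices form an edge. If no `k` edges have at most `k + 3` vertices, where `k ≥ 62208`,
then there are at most `K s ^ 2 n` edges, where `K` depends only on `k` and the number of bits read
by a leaf. Hence triple systems with `ε n ^ 2` edges and no `k` edges on `k + 3` vertices, that is,
counterexamples to the conjecture, need `c n ^ (1 / 2)` gates.
-/

set_option autoImplicit false

namespace Pool.Agent.Results.MP_c82047_co.DecomposableCircuits

open Pool.Agent.H607R2.BW Pool.Agent.Y382.DN

open Classical in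
theorem result :
    -- (1) the bound
    (∀ k w : ℕ, 62208 ≤ k → ∃ K : ℕ,
      ∀ (m s : ℕ) (E : Finset (Finset (Str m))), (∀ e ∈ E, e.card = 3) → HyperDnnf m 3 s w E →
        (∀ T ⊆ E, T.card = k → k + 3 < (T.biUnion id).card) → E.card ≤ K * s ^ 2 * 2 ^ m) ∧
    -- (2) counterexamples need `c n ^ (1 / 2)` gates
    (∀ (k w : ℕ) (ε : ℝ), 62208 ≤ k → 0 < ε → ∃ c : ℝ, 0 < c ∧
      ∀ (m s : ℕ) (E : Finset (Finset (Str m))), (∀ e ∈ E, e.card = 3) → HyperDnnf m 3 s w E →
        (∀ T ⊆ E, T.card = k → k + 3 < (T.biUnion id).card) →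
        ε * ((2 : ℝ) ^ m) ^ 2 ≤ E.card → c * ((2 : ℝ) ^ m) ^ (1 / 2 : ℝ) ≤ s) := by
  have h1 : S_BESD := Pool.Agent.Y259.DN.t_BESD (Pool.Agent.Y417.DN.t_GRD
    Pool.Agent.Y302.DN.t_GCNT Pool.Agent.Y302.DN.t_GPRD Pool.Agent.Y302.DN.t_GFREE
    Pool.Agent.Y302.DN.t_GFREE2 Pool.Agent.Y302.DN.t_GJOIN)
  have h2 := Pool.Agent.Y302.DN.t_BESA h1
  have h6 : 1728 * Nat.factorial 3 ^ 2 = 62208 := by decide
  refine ⟨?_, ?_⟩
  · intro k w hk
    obtain ⟨K, hK⟩ := h1 3 k w le_rfl (by rw [h6]; exact hk)
    exact ⟨K, fun m s E h3 hE hf => hK m s E h3 hE (by simpa using hf)⟩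
  · intro k w ε hk hε
    obtain ⟨c, hc, h⟩ := h2 3 k w ε le_rfl (by rw [h6]; exact hk) hε
    exact ⟨c, hc, fun m s E h3 hE hf hb => h m s E h3 hE (by simpa using hf) hb⟩

end Pool.Agent.Results.MP_c82047_co.DecomposableCircuits
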