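import Pool.Agent.Y426.BES.Graph

/-!
# The Brown–Erdős–Sós conjecture in direct products of quasigroups

The conjecture is equivalent (Solymosi) to its case of triple systems `{x, y, x y}` in quasigroups. Let
`Q` be a direct product of finite quasigroups `A i` (Latin squares; no associativity), let
`α β γ : Q → V` be arbitrary maps, and let `E` be a 3-graph on `V` with at least `ε |Q|²` edges, all
of the form `{α x, β y, γ (x y)}` (for instance: a dense set of entries of the Latin square of `Q`, or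
a dense set of blocks of a direct product of Steiner triple systems).

1. For every `k ≥ 9`: if two of the factors have order at least `n₀(ε, k)`, then some `k` vertices
   span at least `k - 3` edges. The other factors are arbitrary.
2. For every `k`: the same if `Q` has at least `N(ε, k)` factors, of arbitrary orders `≥ 2`.
3. More is true: if `m` factors are large, then for every `t ≥ 1` some `3 (t + 1) ^ m` vertices span at
   least `(2 t + 1) ^ m` edges (for `m = 2` about `4/3` edges per vertex), and if `3 M` factors are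
   large, or if there are many factors, then some `3 C(3M, M)` vertices span at least
   `C(3M, M) C(2M, M)` edges.

Proof. 1. The triangle removal lemma gives a positive proportion of all corners (cells `(a, b)`,
`(a, d)`, `(r, b)` with `a d = r b`) of a factor, hence also, by convexity, of all families of `n` corners
with a common cell `(a, b)`; by induction on the number of factors, such families can be found in
several factors simultaneously. A family of `n` corners in one factor and a corner in another one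
give `3 (2 n + 1)` cells of `E`; suitable `e` of them, `4 n + 2 ≤ e ≤ 6 n + 3`, have only `e + 3`
rows, columns and symbols.
2. For rows `p i ≠ q i` of `A i` let `σ i` be the permutation with `p i * σ i x = q i * x`. For
random `p, q, x` the cells (row `p i` or `q i`, column `σ i ^ j (x i)`) are uniformly distributed, so
some choice makes a dense set of words over the alphabet `{p, q} × {0, …, c-1}` land in `E`, and the
density Hales–Jewett theorem (starting library) gives a combinatorial subspace in `E`; its diagonal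
is a path of cells in two rows, and if the path closes up too early the subspace contains enough
periodic columns.
-/

set_option autoImplicit false

open Finset

namespace Pool.Agent.Results.MP_c82047_co.ProductQuasigroups

universe u v w

/-- A quasigroup operation: all left and right translations are bijective. -/
def IsQuasigroup {A : Type v} (mul : A → A → A) : Prop :=
  (∀ a, Function.Bijective (mul a)) ∧ (∀ b, Function.Bijective (fun a => mul a b))

/-- Let `Q` be the direct product of the `(A i, mul i)`, with the coordinatewise operation. Every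
3-graph `E` on a finite set `V` with at least `ε |Q|²` edges, each of them of the form
`{α x, β y, γ (x y)}` with `x, y` in `Q`, where `α, β, γ : Q → V` are fixed arbitrary maps, has `k`
vertices that span at least `e` edges. -/
def Spans {ι : Type u} [Fintype ι] {A : ι → Type v} [∀ i, Fintype (A i)]
    (mul : ∀ i, A i → A i → A i) (ε : ℝ) (k e : ℕ) : Prop :=
  ∀ (V : Type w) [Fintype V] [DecidableEq V] (α β γ : (∀ i, A i) → V) (E : Finset (Finset V)),
    (∀ f ∈ E, f.card = 3 ∧ ∃ x y : ∀ i, A i, f = {α x, β y, γ (fun i => mul i (x i) (y i))}) →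
    ε * ((∏ i, Fintype.card (A i) : ℕ) : ℝ) ^ 2 ≤ E.card →
    ∃ K : Finset V, K.card = k ∧ e ≤ #{f ∈ E | f ⊆ K}

theorem large_card (ε : ℝ) (hε : 0 < ε) (k : ℕ) : ∃ N : ℕ, ∀ q : ℕ, N ≤ q → ∀ t : ℕ,
    ε * (q : ℝ) ^ 2 ≤ t → 2 ^ k < t := by
  obtain ⟨N, hN⟩ := exists_nat_gt ((2 : ℝ) ^ k / ε)
  refine ⟨N + 1, fun q hq t ht => ?_⟩
  have h1 : (N : ℝ) + 1 ≤ q := by exact_mod_cast hq
  have h2 : (2 : ℝ) ^ k < ε * q := by
    rw [div_lt_iff₀ hε] at hN
    nlinarith
  have h3 : (1 : ℝ) ≤ q := by
    have : (0 : ℝ) ≤ N := Nat.cast_nonneg N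
    linarith
  have h4 : ε * (q : ℝ) ≤ ε * (q : ℝ) ^ 2 :=
    mul_le_mul_of_nonneg_left (by nlinarith) hε.le
  have h5 : (2 : ℝ) ^ k < t := by linarith
  exact_mod_cast h5

theorem card_le_of_large {ι : Type u} [Fintype ι] {A : ι → Type v} [∀ i, Fintype (A i)]
    (hA : ∀ i, Nonempty (A i)) (n m : ℕ) (hm : 1 ≤ m) (h : m ≤ #{i | n ≤ Fintype.card (A i)}) :
    n ≤ ∏ i, Fintype.card (A i) := by
  obtain ⟨i, hi⟩ := card_pos.mp (lt_of_lt_of_le hm h)
  exact (mem_filter.mp hi).2.trans (Nat.le_of_dvd (prod_pos fun i _ => Fintype.card_pos)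
    (dvd_prod_of_mem (fun i => Fintype.card (A i)) (mem_univ i)))

theorem card_le_of_many {ι : Type u} [Fintype ι] {A : ι → Type v} [∀ i, Fintype (A i)]
    (hA : ∀ i, 2 ≤ Fintype.card (A i)) : Fintype.card ι ≤ ∏ i, Fintype.card (A i) := by
  calc Fintype.card ι ≤ 2 ^ Fintype.card ι := Nat.lt_two_pow_self.le
    _ = ∏ _i : ι, 2 := by rw [prod_const, card_univ]
    _ ≤ ∏ i, Fintype.card (A i) := prod_le_prod' fun i _ => hA i

theorem filter_mono {ι : Type u} [Fintype ι] {A : ι → Type v} [∀ i, Fintype (A i)] (n n' m : ℕ)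
    (hn : n ≤ n') (h : m ≤ #{i | n' ≤ Fintype.card (A i)}) :
    m ≤ #{i | n ≤ Fintype.card (A i)} :=
  h.trans (card_le_card (monotone_filter_right _ fun _ _ hi => hn.trans hi))

/-- from cells to vertices -/
theorem spans_of_cells {ι : Type u} [Fintype ι] {A : ι → Type v} [∀ i, Fintype (A i)]
    (mul : ∀ i, A i → A i → A i) (hne : ∀ i, Nonempty (A i)) (ε : ℝ) (k e N : ℕ) (he : 1 ≤ e)
    (hk : 3 ≤ k) (hN : ∀ q : ℕ, N ≤ q → ∀ t : ℕ, ε * (q : ℝ) ^ 2 ≤ t → 2 ^ k < t)
    (hQ : N ≤ ∏ i, Fintype.card (A i)) (hcells : Pool.Agent.Y426.BES.Cells mul (ε / e) e k) :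
    Spans.{u, v, w} mul ε k e := by
  intro V _ _ α β γ E hE hcard
  obtain ⟨K, hK, hKe⟩ := Pool.Agent.Y426.BES.graph3 mul hne e k he hk ε hcells V α β γ E hE hcard
  exact Pool.Agent.Y426.BES.pad E k e (hN _ hQ _ hcard) K hK hKe

theorem result (ε : ℝ) (hε : 0 < ε) :
    -- two large factors, every `k ≥ 9`
    (∀ k : ℕ, 9 ≤ k → ∃ n₀ : ℕ, ∀ (ι : Type u) [Fintype ι] (A : ι → Type v) [∀ i, Fintype (A i)]
      (mul : ∀ i, A i → A i → A i), (∀ i, IsQuasigroup (mul i)) → (∀ i, Nonempty (A i)) →
      2 ≤ #{i | n₀ ≤ Fintype.card (A i)} → Spans.{u, v, w} mul ε k (k - 3)) ∧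
    -- many factors, every `k`
    (∀ k : ℕ, ∃ N : ℕ, ∀ (ι : Type u) [Fintype ι] (A : ι → Type v) [∀ i, Fintype (A i)]
      (mul : ∀ i, A i → A i → A i), (∀ i, IsQuasigroup (mul i)) → (∀ i, 2 ≤ Fintype.card (A i)) →
      N ≤ Fintype.card ι → Spans.{u, v, w} mul ε k (k - 3)) ∧
    -- denser sets of vertices, `m` large factors
    (∀ m t : ℕ, 1 ≤ m → 1 ≤ t → ∃ n₀ : ℕ,
      ∀ (ι : Type u) [Fintype ι] (A : ι → Type v) [∀ i, Fintype (A i)]
      (mul : ∀ i, A i → A i → A i), (∀ i, IsQuasigroup (mul i)) → (∀ i, Nonempty (A i)) →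
      m ≤ #{i | n₀ ≤ Fintype.card (A i)} →
      Spans.{u, v, w} mul ε (3 * (t + 1) ^ m) ((2 * t + 1) ^ m)) ∧
    -- denser sets of vertices, `3 M` large factors or many factors
    (∀ M : ℕ, 1 ≤ M → ∃ n₀ : ℕ, ∀ (ι : Type u) [Fintype ι] (A : ι → Type v) [∀ i, Fintype (A i)]
      (mul : ∀ i, A i → A i → A i), (∀ i, IsQuasigroup (mul i)) →
      (3 * M ≤ #{i | n₀ ≤ Fintype.card (A i)} ∧ ∀ i, Nonempty (A i)) ∨
        (n₀ ≤ Fintype.card ι ∧ ∀ i, 2 ≤ Fintype.card (A i)) →
      Spans.{u, v, w} mul ε (3 * (3 * M).choose M) ((3 * M).choose M * (2 * M).choose M)) := by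
  classical
  refine ⟨?_, ?_, ?_, ?_⟩
  · intro k hk
    obtain ⟨N₁, hN₁⟩ := large_card ε hε k
    have he0 : (0 : ℝ) < ((k - 3 : ℕ) : ℝ) := by
      have : 0 < k - 3 := by omega
      exact_mod_cast this
    obtain ⟨n₁, hn₁⟩ := Pool.Agent.Y426.BES.cells_two.{u, v} (k - 3) (by omega)
      (ε / ((k - 3 : ℕ) : ℝ)) (by positivity)
    refine ⟨max N₁ n₁, ?_⟩
    intro ι _ A _ mul hq hne hι
    refine spans_of_cells mul hne ε k (k - 3) N₁ (by omega) (by omega) hN₁
      (card_le_of_large hne _ 2 (by norm_num) (filter_mono _ _ 2 (le_max_left _ _) hι)) ?_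
    have h := hn₁ ι A mul (fun i => (hq i).1) (fun i => (hq i).2)
      (filter_mono _ _ 2 (le_max_right _ _) hι) hne
    have h3 : k - 3 + 3 = k := by omega
    rwa [h3] at h
  · intro k
    obtain ⟨N₁, hN₁⟩ := large_card ε hε k
    rcases Nat.lt_or_ge 3 k with hk | hk
    · have he0 : (0 : ℝ) < ((k - 3 : ℕ) : ℝ) := by
        have : 0 < k - 3 := by omega
        exact_mod_cast this
      obtain ⟨N₂, hN₂⟩ := Pool.Agent.Y426.BES.cells_many.{u, v} (k - 3) (by omega)
        (ε / ((k - 3 : ℕ) : ℝ)) (by positivity)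
      refine ⟨max N₁ N₂, ?_⟩
      intro ι _ A _ mul hq hA hι
      have hne : ∀ i, Nonempty (A i) := fun i =>
        Fintype.card_pos_iff.mp (by have := hA i; omega)
      refine spans_of_cells mul hne ε k (k - 3) N₁ (by omega) (by omega) hN₁
        (((le_max_left _ _).trans hι).trans (card_le_of_many hA)) ?_
      have h := hN₂ ι A mul (fun i => (hq i).1) (fun i => (hq i).2) ((le_max_right _ _).trans hι) hA
      have h3 : k - 3 + 3 = k := by omega
      rwa [h3] at h
    · refine ⟨N₁, ?_⟩
      intro ι _ A _ mul hq hA hι V _ _ α β γ E hE hcard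
      exact Pool.Agent.Y426.BES.pad E k (k - 3) (hN₁ _ (hι.trans (card_le_of_many hA)) _ hcard)
        ∅ (by simp) (by omega)
  · intro m t hm ht
    obtain ⟨N₁, hN₁⟩ := large_card ε hε (3 * (t + 1) ^ m)
    have he1 : 1 ≤ (2 * t + 1) ^ m := Nat.one_le_pow _ _ (by omega)
    have he0 : (0 : ℝ) < (((2 * t + 1) ^ m : ℕ) : ℝ) := by exact_mod_cast he1
    have hk1 : 1 ≤ (t + 1) ^ m := Nat.one_le_pow _ _ (by omega)
    obtain ⟨n₁, hn₁⟩ := Pool.Agent.Y426.BES.cells_dense.{u, v} m (t - 1)
      (ε / (((2 * t + 1) ^ m : ℕ) : ℝ)) (by positivity)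
    refine ⟨max N₁ n₁, ?_⟩
    intro ι _ A _ mul hq hne hι
    refine spans_of_cells mul hne ε _ _ N₁ he1 (by omega) hN₁
      (card_le_of_large hne _ m hm (filter_mono _ _ m (le_max_left _ _) hι)) ?_
    have h := hn₁ ι A mul (fun i => (hq i).1) (fun i => (hq i).2)
      (filter_mono _ _ m (le_max_right _ _) hι) hne
    have h3 : t - 1 + 1 = t := by omega
    have h4 : t - 1 + 2 = t + 1 := by omega
    rwa [h3, h4] at h
  · intro M hM
    have hc1 : 1 ≤ (3 * M).choose M := Nat.choose_pos (by omega)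
    have hc2 : 1 ≤ (2 * M).choose M := Nat.choose_pos (by omega)
    have he1 : 1 ≤ (3 * M).choose M * (2 * M).choose M := Nat.mul_pos hc1 hc2
    obtain ⟨N₁, hN₁⟩ := large_card ε hε (3 * (3 * M).choose M)
    have he0 : (0 : ℝ) < (((3 * M).choose M * (2 * M).choose M : ℕ) : ℝ) := by exact_mod_cast he1
    obtain ⟨n₁, hn₁⟩ := Pool.Agent.Y426.BES.cells_balanced.{u, v} M hM
      (ε / (((3 * M).choose M * (2 * M).choose M : ℕ) : ℝ)) (by positivity)
    refine ⟨max N₁ n₁, ?_⟩
    intro ι _ A _ mul hq hor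
    have hne : ∀ i, Nonempty (A i) := by
      rcases hor with h | h
      · exact h.2
      · exact fun i => Fintype.card_pos_iff.mp (by have := h.2 i; omega)
    have hor' : (3 * M ≤ #{i | n₁ ≤ Fintype.card (A i)} ∧ ∀ i, Nonempty (A i)) ∨
        (n₁ ≤ Fintype.card ι ∧ ∀ i, 2 ≤ Fintype.card (A i)) := by
      rcases hor with h | h
      · exact Or.inl ⟨filter_mono _ _ _ (le_max_right _ _) h.1, h.2⟩
      · exact Or.inr ⟨(le_max_right _ _).trans h.1, h.2⟩
    have hbig : N₁ ≤ ∏ i, Fintype.card (A i) := by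
      rcases hor with h | h
      · exact card_le_of_large hne _ (3 * M) (by omega)
          (filter_mono _ _ _ (le_max_left _ _) h.1)
      · exact ((le_max_left _ _).trans h.1).trans (card_le_of_many h.2)
    exact spans_of_cells mul hne ε _ _ N₁ he1 (by omega) hN₁ hbig
      (hn₁ ι A mul (fun i => (hq i).1) (fun i => (hq i).2) hor')

end Pool.Agent.Results.MP_c82047_co.ProductQuasigroups
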