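import Mathlib
import Pool.Agent.Y436.Loss

/-!
# The Brown–Erdős–Sós conjecture with a loss depending on the density only

For every `j ≥ 1` and every `γ > 1 / (3 (2 ^ j + j))`: for every fixed `k`, in a 3-graph with `n` large
and at least `γ n ^ 2` edges some `k` vertices span at least `k - j - 2` edges (first for `e ≥ 2 ^ j`
edges on at most `e + j + 2` vertices). The conjecture is `j = 1` for every `γ > 0`.

Method: a core of `2 ^ j - 1` edges on `2 ^ j + j` vertices of large degree (Sárközy–Selkow, with the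
triangle removal lemma), and then growth by one vertex per edge as long as two of the at least `n + 1`
further edges at the core meet.
-/

set_option autoImplicit false

namespace Pool.Agent.Results.MP_c82047_co.UniformLoss

theorem result :
    (∀ j e : ℕ, 1 ≤ j → 2 ^ j ≤ e → ∀ γ : ℝ, 1 / (3 * (2 ^ j + j)) < γ →
      ∃ N : ℕ, ∀ n : ℕ, N ≤ n → ∀ H : Finset (Finset (Fin n)), (∀ f ∈ H, f.card = 3) →
        γ * (n : ℝ) ^ 2 ≤ H.card → ∃ S ⊆ H, S.card = e ∧ (S.biUnion id).card ≤ e + j + 2) ∧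
    (∀ j k : ℕ, 1 ≤ j → 2 ^ j + j + 2 ≤ k → ∀ γ : ℝ, 1 / (3 * (2 ^ j + j)) < γ →
      ∃ N : ℕ, ∀ n : ℕ, N ≤ n → ∀ H : Finset (Finset (Fin n)), (∀ f ∈ H, f.card = 3) →
        γ * (n : ℝ) ^ 2 ≤ H.card →
          ∃ K : Finset (Fin n), K.card = k ∧ k - j - 2 ≤ (H.filter fun f => f ⊆ K).card) := by
  have main : ∀ j e : ℕ, 1 ≤ j → 2 ^ j ≤ e → ∀ γ : ℝ, 1 / (3 * (2 ^ j + j)) < γ →
      ∃ N : ℕ, ∀ n : ℕ, N ≤ n → ∀ H : Finset (Finset (Fin n)), (∀ f ∈ H, f.card = 3) →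
        γ * (n : ℝ) ^ 2 ≤ H.card → ∃ S ⊆ H, S.card = e ∧ (S.biUnion id).card ≤ e + j + 2 := by
    intro j e hj he γ hγ
    obtain ⟨i, rfl⟩ : ∃ i, j = i + 1 := ⟨j - 1, by omega⟩
    have hpos : (0 : ℝ) < 3 * (2 ^ (i + 1) + ((i + 1 : ℕ) : ℝ)) := by positivity
    rw [div_lt_iff₀ hpos] at hγ
    have hM : (((0 + 1) * (2 ^ (i + 1) - 1) + i + 2 : ℕ) : ℝ) = 2 ^ (i + 1) + ((i + 1 : ℕ) : ℝ) := by
      have h1 : (0 + 1) * (2 ^ (i + 1) - 1) + i + 2 = 2 ^ (i + 1) + (i + 1) := by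
        have : 1 ≤ 2 ^ (i + 1) := Nat.one_le_two_pow
        omega
      rw [h1]
      push_cast
      ring
    obtain ⟨N, hN⟩ := Pool.Agent.Y436.Loss.main 0 i e he γ (by
      rw [hM]
      push_cast at hγ ⊢
      linarith)
    refine ⟨N, fun n hn H h3 hcard => ?_⟩
    have h := hN n hn H h3 hcard
    unfold Pool.Agent.Y436.Grow.NoConf at h
    push Not at h
    obtain ⟨S, hS, hSc, hSu⟩ := h
    exact ⟨S, hS, hSc, by omega⟩
  refine ⟨main, ?_⟩
  intro j k hj hk γ hγ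
  obtain ⟨N, hN⟩ := main j (k - j - 2) hj (by omega) γ hγ
  refine ⟨max N k, fun n hn H h3 hcard => ?_⟩
  obtain ⟨S, hS, hSc, hSu⟩ := hN n ((le_max_left _ _).trans hn) H h3 hcard
  have hkn : k ≤ n := (le_max_right _ _).trans hn
  have hSk : (S.biUnion id).card ≤ k := by
    have h1 : 1 ≤ 2 ^ j := Nat.one_le_two_pow
    omega
  obtain ⟨K, hSK, -, hKc⟩ := Finset.exists_subsuperset_card_eq (Finset.subset_univ (S.biUnion id))
    hSk (by rw [Finset.card_univ, Fintype.card_fin]; exact hkn)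
  refine ⟨K, hKc, ?_⟩
  rw [← hSc]
  refine Finset.card_le_card fun f hf => Finset.mem_filter.2 ⟨hS hf, ?_⟩
  exact (Finset.subset_biUnion_of_mem id hf).trans hSK

end Pool.Agent.Results.MP_c82047_co.UniformLoss
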