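import Mathlib
import Pool.Agent.Y436.Count

set_option autoImplicit false

/-!
# Brown-Erdos-Sos: arbitrary 3-graphs with more than `n²/12 + O(n)` edges

For every `K ≥ 8`, a 3-graph on `n` vertices (two edges may share two vertices) in which for every
`k` with `K ≤ k ≤ 2K - 6` every `k` vertices span fewer than `k - 3` edges has at most
`n²/12 + (K³ + 1) n` edges.

Idea of the proof: remove vertices of small degree; let `δ(A) = |A| - e(A)`. A small set with at least
six vertices has `δ ≥ 3`, the maximal small sets with `δ = 2` (flats, 3, 4 or 5 vertices) partition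
the edges, and the maximal small sets with `δ = 3` (planes) partition the pairs of a flat and a vertex
outside it. In a plane the graph of pairs of vertices in a common flat satisfies an
inequality for the squares of the degrees, and the sum over all planes gives the bound.
-/

namespace Pool.Agent.Results.MP_c82047_co.WindowAllTripleSystems

/-- `H` contains no member of the family `F_3(k, s)` of all 3-graphs with `k` vertices and at least
`s` edges: every `k` vertices span fewer than `s` edges of `H`. -/
def FreeOf {n : ℕ} (H : Finset (Finset (Fin n))) (k s : ℕ) : Prop :=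
  ∀ S : Finset (Fin n), S.card = k → (H.filter fun e => e ⊆ S).card < s

theorem result (K : ℕ) (hK : 8 ≤ K) (n : ℕ) (H : Finset (Finset (Fin n)))
    (h3 : ∀ e ∈ H, e.card = 3) (hfree : ∀ k, K ≤ k → k ≤ 2 * K - 6 → FreeOf H k (k - 3)) :
    (H.card : ℝ) ≤ (n : ℝ) ^ 2 / 12 + ((K : ℝ) ^ 3 + 1) * n := by
  have h := Pool.Agent.Y436.Tight.main H Finset.univ K hK h3 (by
    intro A _ h1 h2
    have := hfree A.card h1 h2 A rfl
    unfold Pool.Agent.Y436.Tight.E
    omega)
  have hE : Pool.Agent.Y436.Tight.E H Finset.univ = H.card := by
    unfold Pool.Agent.Y436.Tight.E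
    rw [Finset.filter_true_of_mem fun e _ => Finset.subset_univ e]
  rw [hE, Finset.card_univ, Fintype.card_fin] at h
  have h' : (12 : ℝ) * H.card ≤ (n : ℝ) ^ 2 + (12 * (K : ℝ) ^ 3 + 8) * n := by exact_mod_cast h
  have hn : (0 : ℝ) ≤ n := Nat.cast_nonneg n
  linarith

end Pool.Agent.Results.MP_c82047_co.WindowAllTripleSystems
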